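import Mathlib

/-!
# A continuous image of the real line in a compact space of countable tightness which is not metrizable

Let `X = 2^ℕ`. The compact space `K` consists of the functions `r • 1_S : X → ℝ`, where `0 ≤ r ≤ 1` and
`S` is a basic clopen set of `X` (the set of all points extending a finite `0`-`1` sequence), or a
singleton, or empty; the topology is that of pointwise convergence. A path in `K` visits, one after
the other, the indicators of the countably many basic clopen sets, returning to `0` in between. Its range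
does not have countable character at `0`.
-/

open Set Topology Filter

namespace Pool.Agent.Results.MP_ed4848_gt.NotMetrizable

/-- A space has countable tightness if every point in the closure of a set is in the closure of a
countable subset of that set. -/
def CountablyTight (K : Type) [TopologicalSpace K] : Prop :=
  ∀ (A : Set K) (x : K), x ∈ closure A → ∃ B ⊆ A, B.Countable ∧ x ∈ closure B

/-- the Cantor set -/
abbrev X : Type := ℕ → Bool

theorem X_not_countable : ¬ (Set.univ : Set X).Countable := by
  intro h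
  have h1 : Countable X := Set.countable_univ_iff.1 h
  obtain ⟨f, hf⟩ := exists_surjective_nat X
  obtain ⟨n, hn⟩ := hf (fun k => !(f k k))
  have := congrFun hn n
  simp at this

/-- the compact set of functions -/
def KSet : Set (X → ℝ) :=
  {f | (∀ x, f x ∈ Icc (0 : ℝ) 1) ∧ ∀ x y z : X,
    (∀ n, (∀ i < n, x i = y i) → ∀ i < n, x i = z i) → f x = 0 ∨ f y = 0 ∨ f z = f x}

theorem isCompact_KSet : IsCompact KSet := by
  have h1 : IsCompact (Set.pi Set.univ (fun _ : X => Icc (0 : ℝ) 1)) :=
    isCompact_univ_pi fun _ => isCompact_Icc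
  refine h1.of_isClosed_subset ?_ (fun f hf x _ => hf.1 x)
  have h2 : KSet = (⋂ x : X, {f : X → ℝ | f x ∈ Icc (0 : ℝ) 1}) ∩ ⋂ (x : X) (y : X) (z : X)
      (_ : ∀ n, (∀ i < n, x i = y i) → ∀ i < n, x i = z i),
        {f : X → ℝ | f x = 0 ∨ f y = 0 ∨ f z = f x} := by
    ext f
    simp only [KSet, mem_ofPred_eq, mem_inter_iff, mem_iInter]
  rw [h2]
  refine IsClosed.inter (isClosed_iInter fun x => isClosed_Icc.preimage (continuous_apply x)) ?_
  refine isClosed_iInter fun x => isClosed_iInter fun y => isClosed_iInter fun z =>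
    isClosed_iInter fun _ => ?_
  refine (isClosed_eq (continuous_apply x) continuous_const).union
    ((isClosed_eq (continuous_apply y) continuous_const).union
    (isClosed_eq (continuous_apply z) (continuous_apply x)))

open Classical in
/-- the indicator function of a basic clopen set -/
noncomputable def cyl (s : Σ n : ℕ, (Fin n → Bool)) (y : X) : ℝ :=
  if ∀ i : Fin s.1, y i = s.2 i then 1 else 0

theorem smul_cyl_mem {r : ℝ} (hr : r ∈ Icc (0 : ℝ) 1) (s : Σ n : ℕ, (Fin n → Bool)) :
    (fun y => r * cyl s y) ∈ KSet := by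
  refine ⟨fun x => ?_, fun x y z h => ?_⟩
  · show r * cyl s x ∈ Icc (0 : ℝ) 1
    unfold cyl
    split_ifs
    · simpa using hr
    · simp
  · by_cases hx : ∀ i : Fin s.1, x i = s.2 i
    · by_cases hy : ∀ i : Fin s.1, y i = s.2 i
      · right; right
        have h1 := h s.1 (fun i hi => (hx ⟨i, hi⟩).trans (hy ⟨i, hi⟩).symm)
        have hz : ∀ i : Fin s.1, z i = s.2 i := fun i => (h1 i i.2).symm.trans (hx i)
        simp only [cyl, if_pos hx, if_pos hz]
      · right; left
        simp only [cyl, if_neg hy, mul_zero]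
    · left
      simp only [cyl, if_neg hx, mul_zero]

/-- Every member of `KSet` is a multiple of the indicator of a basic clopen set or is supported by
one point. -/
theorem KSet_cases {f : X → ℝ} (hf : f ∈ KSet) :
    (∃ s, ∃ r ∈ Icc (0 : ℝ) 1, f = fun y => r * cyl s y) ∨ ∃ x : X, ∀ y, y ≠ x → f y = 0 := by
  classical
  by_cases h0 : ∃ x : X, ∀ y, y ≠ x → f y = 0
  · exact Or.inr h0
  · left
    push Not at h0
    obtain ⟨a, -, ha⟩ := h0 (fun _ => false)
    obtain ⟨b, hb1, hb⟩ := h0 a
    -- pairs of points of the support that differ at coordinate `n`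
    have hex : ∃ n : ℕ, ∃ x y : X, f x ≠ 0 ∧ f y ≠ 0 ∧ x n ≠ y n := by
      obtain ⟨n, hn⟩ := Function.ne_iff.1 hb1
      exact ⟨n, b, a, hb, ha, hn⟩
    let n := Nat.find hex
    obtain ⟨x, y, hx, hy, hxy⟩ := Nat.find_spec hex
    have hmin : ∀ m < n, ∀ u v : X, f u ≠ 0 → f v ≠ 0 → u m = v m := by
      intro m hm u v hu hv
      by_contra hne
      exact Nat.find_min hex hm ⟨u, v, hu, hv, hne⟩
    refine ⟨⟨n, fun i => x i⟩, f x, hf.1 x, ?_⟩
    funext z
    by_cases hz : ∀ i : Fin n, z i = x i
    · have hz' : ∀ k, (∀ i < k, x i = y i) → ∀ i < k, x i = z i := by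
        intro k hk i hi
        have hkn : k ≤ n := by
          by_contra hlt
          exact hxy (hk n (not_le.1 hlt))
        exact (hz ⟨i, hi.trans_le hkn⟩).symm
      rcases hf.2 x y z hz' with h | h | h
      · exact absurd h hx
      · exact absurd h hy
      · rw [h]
        simp only [cyl]
        rw [if_pos hz, mul_one]
    · have hfz : f z = 0 := by
        by_contra hne
        exact hz fun i => hmin i i.2 z x hne hx
      simp only [cyl]
      rw [hfz, if_neg hz, mul_zero]

/-- The sets of functions `r • c` are hereditarily separable. -/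
theorem separable_line (A : Set (X → ℝ)) (c : X → ℝ) :
    ∃ B ⊆ A, B.Countable ∧ ∀ r : ℝ, (fun y => r * c y) ∈ A → (fun y => r * c y) ∈ closure B := by
  let g : ℝ → X → ℝ := fun r y => r * c y
  have hg : Continuous g := continuous_pi fun y => continuous_id.mul continuous_const
  obtain ⟨t, ht1, ht2, ht3⟩ :=
    (TopologicalSpace.IsSeparable.of_separableSpace (g ⁻¹' A)).exists_countable_dense_subset
  refine ⟨g '' t, ?_, ht2.image g, fun r hr => ?_⟩
  · rintro _ ⟨r, hr, rfl⟩
    exact ht1 hr
  · have h1 : r ∈ closure t := ht3 hr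
    exact image_closure_subset_closure_image hg ⟨r, h1, rfl⟩

open Classical in
/-- the function with value `1` at `x` and `0` elsewhere -/
noncomputable def pt (x : X) (y : X) : ℝ := if y = x then 1 else 0

theorem tight (A : Set (X → ℝ)) (hA : A ⊆ KSet) (f : X → ℝ) (hf : f ∈ closure A) :
    ∃ B ⊆ A, B.Countable ∧ f ∈ closure B := by
  classical
  choose Bs hBs1 hBs2 hBs3 using fun s : (Σ n : ℕ, (Fin n → Bool)) => separable_line A (cyl s)
  choose Bx hBx1 hBx2 hBx3 using fun x : X => separable_line A (pt x)
  let E : Set (X → ℝ) := {g ∈ A | ∃ x : X, ∀ y, y ≠ x → g y = 0}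
  have hE : ∀ g ∈ E, ∃ x : X, ∃ r : ℝ, g = fun y => r * pt x y := by
    rintro g ⟨-, x, hx⟩
    refine ⟨x, g x, ?_⟩
    funext y
    by_cases hy : y = x
    · simp [pt, hy]
    · simp [pt, hy, hx y hy]
  have hcover : A ⊆ closure (⋃ s, Bs s) ∪ E := by
    intro g hg
    rcases KSet_cases (hA hg) with ⟨s, r, -, rfl⟩ | h
    · exact Or.inl (closure_mono (subset_iUnion Bs s) (hBs3 s r hg))
    · exact Or.inr ⟨hg, h⟩
  have hf' : f ∈ closure (⋃ s, Bs s) ∪ closure E := by
    have := closure_mono hcover hf
    rwa [closure_union, closure_closure] at this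
  rcases hf' with hf' | hf'
  · exact ⟨⋃ s, Bs s, iUnion_subset hBs1, countable_iUnion hBs2, hf'⟩
  · -- the set of the points that are supports of members of `E`
    let C : Set X := {x | ∃ g ∈ E, g x ≠ 0}
    -- members of `E` with support in a countable set
    have key : ∀ D : Set X, D.Countable → f ∈ closure {g ∈ E | ∀ x, g x ≠ 0 → x ∈ D} →
        ∃ B ⊆ A, B.Countable ∧ f ∈ closure B := by
      intro D hD hfD
      have hsub : {g ∈ E | ∀ x, g x ≠ 0 → x ∈ D} ⊆ closure ((⋃ x ∈ D, Bx x) ∪ (A ∩ {0})) := by
        rintro g ⟨hg, hgD⟩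
        obtain ⟨x, r, rfl⟩ := hE g hg
        by_cases hr : r = 0
        · subst hr
          have h0 : (fun y => (0 : ℝ) * pt x y) = 0 := by funext y; simp
          rw [h0] at hg ⊢
          exact subset_closure (Or.inr ⟨hg.1, rfl⟩)
        · have hx : x ∈ D := hgD x (by simp [pt, hr])
          refine closure_mono ?_ (hBx3 x r hg.1)
          exact (subset_biUnion_of_mem (u := fun x => Bx x) hx).trans subset_union_left
      refine ⟨(⋃ x ∈ D, Bx x) ∪ (A ∩ {0}), ?_, ?_, ?_⟩
      · exact union_subset (iUnion₂_subset fun x _ => hBx1 x) inter_subset_left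
      · exact (hD.biUnion fun x _ => hBx2 x).union ((countable_singleton _).mono inter_subset_right)
      · have := closure_mono hsub hfD
        rwa [closure_closure] at this
    by_cases hf0 : ∃ x, f x ≠ 0
    · obtain ⟨x, hx⟩ := hf0
      refine key {x} (countable_singleton x) ?_
      have hO : {g : X → ℝ | g x ≠ 0} ∈ 𝓝 f :=
        (isOpen_ne.preimage (continuous_apply x)).mem_nhds hx
      have h1 : f ∈ closure (E ∩ {g : X → ℝ | g x ≠ 0}) := by
        rw [mem_closure_iff_nhds] at hf' ⊢
        intro U hU
        obtain ⟨g, hg1, hg2⟩ := hf' (U ∩ {g : X → ℝ | g x ≠ 0}) (inter_mem hU hO)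
        exact ⟨g, hg1.1, hg2, hg1.2⟩
      refine closure_mono ?_ h1
      rintro g ⟨hg, hgx⟩
      refine ⟨hg, fun y hy => ?_⟩
      obtain ⟨z, r, rfl⟩ := hE g hg
      have h2 : x = z := by
        by_contra hne
        exact hgx (by simp [pt, hne])
      have h3 : y = z := by
        by_contra hne
        exact hy (by simp [pt, hne])
      rw [h2, h3]; rfl
    · push Not at hf0
      have hf0' : f = 0 := funext hf0
      by_cases hC : C.Finite
      · refine key C hC.countable ?_
        refine closure_mono ?_ hf'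
        intro g hg
        exact ⟨hg, fun x hx => ⟨g, hg, hx⟩⟩
      · have hC' : C.Infinite := hC
        let x : ℕ → X := fun n => hC'.natEmbedding C n
        have hxinj : Function.Injective x := fun m n h =>
          (hC'.natEmbedding C).injective (Subtype.ext h)
        have hxC : ∀ n, ∃ g ∈ E, g (x n) ≠ 0 := fun n => (hC'.natEmbedding C n).2
        choose g hg1 hg2 using hxC
        have hg3 : ∀ n y, y ≠ x n → g n y = 0 := by
          intro n y hy
          obtain ⟨z, r, hz⟩ := hE (g n) (hg1 n)
          have h4 : x n = z := by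
            by_contra hne
            exact hg2 n (by rw [hz]; simp [pt, hne])
          rw [hz]
          simp [pt, ← h4, hy]
        refine ⟨range g, ?_, countable_range g, ?_⟩
        · rintro _ ⟨n, rfl⟩
          exact (hg1 n).1
        · rw [hf0']
          have hlim : Tendsto g atTop (𝓝 0) := by
            rw [tendsto_pi_nhds]
            intro y
            have hfin : {n | g n y ≠ 0}.Finite := by
              apply Set.Subsingleton.finite
              intro m hm n hn
              have h5 : y = x m := by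
                by_contra hne; exact hm (hg3 m y hne)
              have h6 : y = x n := by
                by_contra hne; exact hn (hg3 n y hne)
              exact hxinj (h5.symm.trans h6)
            refine tendsto_const_nhds.congr' ?_
            have := hfin.compl_mem_cofinite
            rw [Nat.cofinite_eq_atTop] at this
            filter_upwards [this] with n hn
            simp only [mem_compl_iff, mem_ofPred_eq, not_not] at hn
            simp [hn]
          exact mem_closure_of_tendsto hlim (Eventually.of_forall fun n => ⟨n, rfl⟩)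

theorem countablyTight : CountablyTight KSet := by
  intro A x hx
  have h1 : (x : X → ℝ) ∈ closure ((↑) '' A : Set (X → ℝ)) :=
    image_closure_subset_closure_image continuous_subtype_val ⟨x, hx, rfl⟩
  obtain ⟨B, hB1, hB2, hB3⟩ := tight _ (by rintro _ ⟨a, -, rfl⟩; exact a.2) _ h1
  refine ⟨(↑) ⁻¹' B, ?_, hB2.preimage Subtype.val_injective, ?_⟩
  · intro a ha
    obtain ⟨b, hb, hab⟩ := hB1 ha
    rwa [← Subtype.ext hab]
  · rw [closure_subtype]
    refine closure_mono ?_ hB3
    intro b hb
    obtain ⟨a, -, rfl⟩ := hB1 hb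
    exact ⟨a, hb, rfl⟩

/-! ### The path -/

/-- the tent function on `[0,1]` -/
noncomputable def tent (u : ℝ) : ℝ := max 0 (1 - |2 * u - 1|)

theorem continuous_tent : Continuous tent := by
  unfold tent; fun_prop

theorem tent_mem (u : ℝ) : tent u ∈ Icc (0 : ℝ) 1 := by
  refine ⟨le_max_left _ _, max_le zero_le_one ?_⟩
  linarith [abs_nonneg (2 * u - 1)]

theorem tent_half : tent (1 / 2) = 1 := by
  norm_num [tent]

theorem tent_eq_zero {u : ℝ} (h : u ≤ 0 ∨ 1 ≤ u) : tent u = 0 := by
  unfold tent
  apply max_eq_left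
  rcases h with h | h
  · rw [abs_of_nonpos (by linarith)]; linarith
  · rw [abs_of_nonneg (by linarith)]; linarith

/-- an enumeration of the basic clopen sets -/
noncomputable def e : ℕ → Σ n : ℕ, (Fin n → Bool) := (exists_surjective_nat _).choose

theorem e_surj : Function.Surjective e := (exists_surjective_nat _).choose_spec

/-- the path -/
noncomputable def path (t : ℝ) (y : X) : ℝ := ∑ᶠ k : ℕ, tent (t - k) * cyl (e k) y

theorem path_eq (t : ℝ) (k : ℕ) (h : (k : ℝ) ≤ t) (h' : t ≤ k + 1) :
    path t = fun y => tent (t - k) * cyl (e k) y := by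
  funext y
  refine finsum_eq_single _ k fun m hm => ?_
  rw [tent_eq_zero, zero_mul]
  rcases lt_or_gt_of_ne hm with hlt | hlt
  · right
    have : (m : ℝ) + 1 ≤ k := by exact_mod_cast hlt
    linarith
  · left
    have : (k : ℝ) + 1 ≤ m := by exact_mod_cast hlt
    linarith

theorem path_neg (t : ℝ) (h : t ≤ 0) : path t = 0 := by
  funext y
  refine (finsum_eq_zero_of_forall_eq_zero fun m => ?_)
  rw [tent_eq_zero, zero_mul]
  left
  have : (0 : ℝ) ≤ m := Nat.cast_nonneg m
  linarith

theorem path_mem (t : ℝ) : path t ∈ KSet := by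
  rcases le_total t 0 with h | h
  · rw [path_neg t h]
    have := smul_cyl_mem (r := 0) ⟨le_rfl, zero_le_one⟩ (e 0)
    convert this using 1
    funext y; simp
  · rw [path_eq t ⌊t⌋₊ (Nat.floor_le h) (Nat.lt_floor_add_one t).le]
    exact smul_cyl_mem (tent_mem _) _

theorem continuous_path : Continuous path := by
  refine continuous_pi fun y => ?_
  refine continuous_finsum (f := fun (k : ℕ) (t : ℝ) => tent (t - k) * cyl (e k) y) (fun k => ?_) ?_
  · exact (continuous_tent.comp (continuous_id.sub continuous_const)).mul continuous_const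
  · intro t
    refine ⟨Iio (t + 1), Iio_mem_nhds (by linarith), ?_⟩
    refine (Set.finite_Iic ⌊t + 1⌋₊).subset ?_
    rintro k ⟨u, hu1, hu2⟩
    have hu1' : tent (u - k) * cyl (e k) y ≠ 0 := hu1
    have h1 : ¬ (u - k ≤ 0 ∨ 1 ≤ u - k) := by
      intro h
      exact hu1' (by rw [tent_eq_zero h, zero_mul])
    push Not at h1
    have hu2' : u < t + 1 := hu2
    exact Nat.le_floor (by linarith [h1.1])

theorem cyl_mem_range (s : Σ n : ℕ, (Fin n → Bool)) : cyl s ∈ range path := by
  obtain ⟨k, rfl⟩ := e_surj s
  refine ⟨k + 1 / 2, ?_⟩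
  rw [path_eq _ k (by linarith) (by linarith)]
  funext y
  have : ((k : ℝ) + 1 / 2 - k) = 1 / 2 := by ring
  rw [this, tent_half, one_mul]

theorem zero_mem_range : (0 : X → ℝ) ∈ range path := ⟨0, path_neg 0 le_rfl⟩

/-- No space that embeds in the range of the path and contains `0` and the indicators is first
countable. -/
theorem not_countable_character (Z : Type*) [TopologicalSpace Z] [FirstCountableTopology Z]
    (j : Z → X → ℝ) (hj : IsInducing j) (z : Z) (hz : j z = 0)
    (hcyl : ∀ s, ∃ w, j w = cyl s) : False := by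
  obtain ⟨V, hV⟩ := (𝓝 z).exists_antitone_basis
  have hVm : ∀ n, ∃ F : Set X, F.Finite ∧ ∀ w : Z, (∀ y ∈ F, j w y = 0) → w ∈ V n := by
    intro n
    have h1 : V n ∈ 𝓝 z := hV.1.mem_of_mem trivial
    rw [hj.nhds_eq_comap, hz] at h1
    obtain ⟨U, hU, hUV⟩ := h1
    rw [nhds_pi, Filter.mem_pi] at hU
    obtain ⟨F, hF, t, ht, hsub⟩ := hU
    refine ⟨F, hF, fun w hw => hUV (hsub ?_)⟩
    intro y hy
    rw [hw y hy]
    exact mem_of_mem_nhds (ht y)
  choose F hF1 hF2 using hVm
  obtain ⟨x, hx⟩ : ∃ x : X, x ∉ ⋃ n, F n := by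
    by_contra hcon
    push Not at hcon
    exact X_not_countable ((countable_iUnion fun n => (hF1 n).countable).mono fun x _ => hcon x)
  have hW : {w : Z | j w x < 1} ∈ 𝓝 z := by
    refine IsOpen.mem_nhds ?_ ?_
    · exact isOpen_Iio.preimage ((continuous_apply x).comp hj.continuous)
    · simp [hz]
  obtain ⟨n, -, hn⟩ := hV.1.mem_iff.1 hW
  have hm : ∃ m : ℕ, ∀ y ∈ F n, ∃ i < m, y i ≠ x i := by
    have : ∀ y ∈ F n, ∃ i, y i ≠ x i := by
      intro y hy
      apply Function.ne_iff.1
      rintro rfl
      exact hx (mem_iUnion.2 ⟨n, hy⟩)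
    choose! i hi using this
    obtain ⟨m, hm⟩ := ((hF1 n).image i).bddAbove
    exact ⟨m + 1, fun y hy => ⟨i y, Nat.lt_succ_of_le (hm ⟨y, hy, rfl⟩), hi y hy⟩⟩
  obtain ⟨m, hm⟩ := hm
  obtain ⟨w, hw⟩ := hcyl ⟨m, fun i => x i⟩
  have h2 : w ∈ V n := by
    refine hF2 n w fun y hy => ?_
    obtain ⟨i, hi, hne⟩ := hm y hy
    rw [hw]
    unfold cyl
    rw [if_neg]
    intro h
    exact hne (h ⟨i, hi⟩)
  have h3 : j w x < 1 := hn h2
  rw [hw] at h3
  unfold cyl at h3
  rw [if_pos (fun i => rfl)] at h3
  exact lt_irrefl _ h3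

/-- **Answer to Q2.** There is a compact Hausdorff space `K` of countable tightness such that for every
nonempty index set `κ` some continuous map `ℝ^κ → K` has a non-metrizable range; already the real line
itself has a non-metrizable continuous image in `K`. -/
theorem result : ∃ (K : Type) (_ : TopologicalSpace K), CompactSpace K ∧ T2Space K ∧
    CountablyTight K ∧ ∀ (κ : Type) [Nonempty κ], ∃ φ : (κ → ℝ) → K, Continuous φ ∧
      ¬ TopologicalSpace.MetrizableSpace (range φ) := by
  refine ⟨KSet, inferInstance, isCompact_iff_compactSpace.1 isCompact_KSet, inferInstance,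
    countablyTight, fun κ _ => ?_⟩
  obtain ⟨k0⟩ := ‹Nonempty κ›
  let p : ℝ → KSet := fun t => ⟨path t, path_mem t⟩
  have hp : Continuous p := continuous_path.subtype_mk _
  refine ⟨fun v => p (v k0), hp.comp (continuous_apply k0), fun hM => ?_⟩
  have hr : ∀ f : X → ℝ, f ∈ range path → ∃ w : range (fun v : κ → ℝ => p (v k0)),
      ((w : KSet) : X → ℝ) = f := by
    rintro _ ⟨t, rfl⟩
    exact ⟨⟨p t, fun _ => t, rfl⟩, rfl⟩
  obtain ⟨z, hz⟩ := hr 0 zero_mem_range
  refine not_countable_character (range (fun v : κ → ℝ => p (v k0)))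
    (fun w => ((w : KSet) : X → ℝ)) ?_ z hz (fun s => hr _ (cyl_mem_range s))
  exact IsInducing.subtypeVal.comp IsInducing.subtypeVal

end Pool.Agent.Results.MP_ed4848_gt.NotMetrizable
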